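import Pool.Agent.H29.FL4.Stmts

/-!
# Board fl4, row UNI (MP_e1ba20)
-/

set_option autoImplicit false

open Matrix MeasureTheory

namespace Pool.FL4

open Pool.FLT

namespace UNI

/-- The vector of `aa 4` with coordinates `p + a, p - a, -p + b, -p - b`. -/
noncomputable def vec (p a b : ℝ) : aa 4 :=
  ⟨WithLp.toLp 2 (![p + a, p - a, -p + b, -p - b] : Fin 4 → ℝ), by
    show ∑ i, (WithLp.toLp 2 (![p + a, p - a, -p + b, -p - b] : Fin 4 → ℝ) : EuclideanSpace ℝ (Fin 4)) i = 0
    rw [Fin.sum_univ_four]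
    simp⟩

theorem cor_vec (p a b : ℝ) : cor (vec p a b) p a b := by
  refine ⟨?_, ?_, ?_, ?_⟩ <;> simp [vec, co]

theorem eqv_of {i : ℕ} (hi : 1 ≤ i) (h2 : ACTStmt) (s : ℤ) (d : Fin 4 → ℝ) (hd : ∀ j, d j ≠ 0)
    (a b c e a' b' c' e' : ℤ)
    (h : ∀ j, d j = (a + b * r j) + (c + e * r j) * be i j * yy i j)
    (h' : ∀ j, (d j)⁻¹ = (a' + b' * r j) + (c' + e' * r j) * be i j * yy i j) :
    Eqv i s s d := by
  refine ⟨hd, fun z => ⟨fun hz => ?_, fun hz => ?_⟩⟩
  · have := h2 i hi s a b c e z hz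
    refine (congrArg (inL i s) ?_).mp this
    funext j
    rw [h j]
  · have := h2 i hi s a' b' c' e' _ hz
    refine (congrArg (inL i s) ?_).mp this
    funext j
    rw [← h' j, mul_assoc, mul_inv_cancel₀ (hd j), mul_one]

end UNI

open UNI in
theorem uni (h1 : POSStmt) (h2 : ACTStmt) (h3 : ALGStmt) (h4 : LGSStmt) : UNIStmt := by
  intro i hi
  obtain ⟨A, B, C, D, hA, hB, hC, hD, hdet, e1, e2⟩ := h4 i hi
  obtain ⟨⟨a1, b1, c1, d1, g1⟩, ⟨a2, b2, c2, d2, g2⟩⟩ := h3 i hi
  have hr := (h1 i hi).1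
  have hs : (1 : ℝ) < √2 := by
    rw [show (1 : ℝ) = √1 by simp]
    exact Real.sqrt_lt_sqrt (by norm_num) (by norm_num)
  have hsq : √2 * √2 = (2 : ℝ) := Real.mul_self_sqrt (by norm_num)
  have hp : (0 : ℝ) < 1 + √2 := by linarith
  let w : Fin 3 → Fin 4 → ℝ := ![fun j => 1 + r j, fun j => (be i j + yy i j) ^ 2,
    fun j => ((r j * be i j - 1 + yy i j) * (P i - Q i * r j)) ^ 4]
  let x : Fin 3 → aa 4 := ![vec (Real.log (1 + √2)) 0 0, vec 0 A B, vec 0 C D]
  have hw : ∀ k j, |w k j| = Real.exp (co (x k) j) := by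
    intro k j
    fin_cases k
    · show |1 + r j| = Real.exp (co (vec (Real.log (1 + √2)) 0 0) j)
      obtain ⟨q0, q1, q2, q3⟩ := cor_vec (Real.log (1 + √2)) 0 0
      have hneg : |1 + -√2| = Real.exp (-Real.log (1 + √2)) := by
        rw [Real.exp_neg, Real.exp_log hp, abs_of_neg (by linarith)]
        symm
        apply inv_eq_of_mul_eq_one_right
        linear_combination hsq
      fin_cases j
      · show |1 + √2| = Real.exp (co (vec (Real.log (1 + √2)) 0 0) 0)
        rw [q0, add_zero, Real.exp_log hp, abs_of_pos hp]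
      · show |1 + √2| = Real.exp (co (vec (Real.log (1 + √2)) 0 0) 1)
        rw [q1, sub_zero, Real.exp_log hp, abs_of_pos hp]
      · show |1 + -√2| = Real.exp (co (vec (Real.log (1 + √2)) 0 0) 2)
        rw [q2, add_zero, hneg]
      · show |1 + -√2| = Real.exp (co (vec (Real.log (1 + √2)) 0 0) 3)
        rw [q3, sub_zero, hneg]
    · show |(be i j + yy i j) ^ 2| = Real.exp (co (vec 0 A B) j)
      rw [e1 j]
      obtain ⟨q0, q1, q2, q3⟩ := cor_vec 0 A B
      congr 1
      fin_cases j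
      · show A = co (vec 0 A B) 0
        rw [q0, zero_add]
      · show -A = co (vec 0 A B) 1
        rw [q1, zero_sub]
      · show B = co (vec 0 A B) 2
        rw [q2, neg_zero, zero_add]
      · show -B = co (vec 0 A B) 3
        rw [q3, neg_zero, zero_sub]
    · show |((r j * be i j - 1 + yy i j) * (P i - Q i * r j)) ^ 4| = Real.exp (co (vec 0 C D) j)
      rw [e2 j]
      obtain ⟨q0, q1, q2, q3⟩ := cor_vec 0 C D
      congr 1
      fin_cases j
      · show C = co (vec 0 C D) 0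
        rw [q0, zero_add]
      · show -C = co (vec 0 C D) 1
        rw [q1, zero_sub]
      · show D = co (vec 0 C D) 2
        rw [q2, neg_zero, zero_add]
      · show -D = co (vec 0 C D) 3
        rw [q3, neg_zero, zero_sub]
  have hw0 : ∀ k j, w k j ≠ 0 := by
    intro k j h0
    have h := hw k j
    rw [h0, abs_zero] at h
    exact absurd h (ne_of_lt (Real.exp_pos _))
  refine ⟨A, B, C, D, w, x, hA, hB, hC, hD, hdet, cor_vec _ _ _, cor_vec _ _ _, cor_vec _ _ _, hw,
    fun k s => ?_⟩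
  fin_cases k
  · refine eqv_of hi h2 s _ (hw0 0) 1 1 0 0 (-1) 1 0 0 (fun j => ?_) (fun j => ?_)
    · show 1 + r j = _
      push_cast
      ring
    · show (1 + r j)⁻¹ = _
      rw [inv_eq_of_mul_eq_one_right]
      push_cast
      have := hr j
      linear_combination this
  · refine eqv_of hi h2 s _ (hw0 1) a1 b1 c1 d1 a1 b1 (-c1) (-d1) (fun j => (g1 j).1) (fun j => ?_)
    refine (g1 j).2.trans ?_
    push_cast
    ring
  · refine eqv_of hi h2 s _ (hw0 2) a2 b2 c2 d2 a2 b2 (-c2) (-d2) (fun j => (g2 j).1) (fun j => ?_)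
    refine (g2 j).2.trans ?_
    push_cast
    ring

end Pool.FL4
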